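import Pool.Agent.Lib.MP_eee7a8_ag.TB.C96.Par

/-!
# TAGBR: module LENC (helper96)
-/

open Matrix

namespace Pool.Agent.Lib.MP_eee7a8_ag.TB.C96

theorem lenc (hst : StabStatement) : LencStatement := by
  intro G hG p w γ hγ hp hg hs hpw
  obtain ⟨N, hN0, hN⟩ := gen_par hst G hG p γ hγ hp hg
  have hpw0 : p ≠ w := by
    have := hpw 1 G.one_mem
    rwa [one_smul] at this
  -- third clause
  have h3 : ∀ g ∈ G, ¬ Cross p w (g • w) (g • γ • w) := by
    intro g hgG hc
    by_cases hgp : g • p = p
    · obtain ⟨k, hk⟩ := hg g hgG hgp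
      have e1 : g • w = par p (k * N) • w := by
        rw [neg_zpow_smul γ k g w hk, zpow_smul_of p N γ hN k w]
      have e2 : g • γ • w = par p ((k + 1) * N) • w := by
        rw [neg_zpow_smul γ k g (γ • w) hk, ← zpow_smul_of p N γ hN (k + 1) w, _root_.zpow_add_one,
          mul_smul]
      rw [e1, e2, cross_par] at hc
      have h1 : 0 ≤ k * (k + 1) := by
        rcases le_or_gt 0 k with h | h
        · exact mul_nonneg h (by omega)
        · exact mul_nonneg_of_nonpos_of_nonpos (le_of_lt h) (by omega)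
      have h2 : 0 ≤ k * N * ((k + 1) * N) * dt p w ^ 6 := by
        have : k * N * ((k + 1) * N) * dt p w ^ 6 = (k * (k + 1)) * (N * dt p w ^ 3) ^ 2 := by ring
        rw [this]
        exact mul_nonneg h1 (sq_nonneg _)
      linarith
    · have hgw : g • p ≠ w := hpw g hgG
      rcases cross_third hc hgp hgw with h | h
      · exact hs.2 g hgG h
      · apply hs.2 (g * γ) (G.mul_mem hgG hγ)
        rw [mul_smul, mul_smul, hp]
        exact h
  -- second clause
  have h2 : ∀ x y, (∀ g ∈ G, ¬ Cross x y (g • p) (g • w)) →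
      (∀ g ∈ G, g • x ≠ p ∧ g • y ≠ p) → ∀ g ∈ G, ¬ Cross x y (g • w) (g • γ • w) := by
    intro x y hxy hne g hgG hc
    have hx : g • p ≠ x := by
      intro h
      apply (hne g⁻¹ (G.inv_mem hgG)).1
      rw [← h, inv_smul_smul]
    have hy : g • p ≠ y := by
      intro h
      apply (hne g⁻¹ (G.inv_mem hgG)).2
      rw [← h, inv_smul_smul]
    rcases cross_third hc hx hy with h | h
    · exact hxy g hgG h
    · apply hxy (g * γ) (G.mul_mem hgG hγ)
      rw [mul_smul, mul_smul, hp]
      exact h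
  refine ⟨⟨?_, ?_⟩, h2, h3⟩
  · -- w ≠ γ w
    intro h
    have e : γ • w = par p (1 * N) • w := by
      have := zpow_smul_of p N γ hN 1 w
      rwa [zpow_one] at this
    have h4 : dt w (par p (1 * N) • w) = 0 := by rw [← e, ← h, dt_self]
    have h5 := dt_par_right p w w (1 * N)
    rw [h4, dt_self, dt_symm w p] at h5
    have h6 : dt p w ≠ 0 := dt_ne_zero hpw0
    have h7 : N * (dt p w * dt p w) ≠ 0 := mul_ne_zero hN0 (mul_ne_zero h6 h6)
    apply h7
    linarith
  · intro g hgG hc
    have hx : g • p ≠ w := hpw g hgG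
    have hy : g • p ≠ γ • w := by
      intro h
      apply hpw (γ⁻¹ * g) (G.mul_mem (G.inv_mem hγ) hgG)
      rw [mul_smul, h, inv_smul_smul]
    have main : ∀ k ∈ G, ¬ Cross w (γ • w) (k • p) (k • w) := by
      intro k hk h
      have h' := (cross_smul k⁻¹ _ _ _ _).2 h
      rw [inv_smul_smul, inv_smul_smul] at h'
      exact h3 k⁻¹ (G.inv_mem hk) (cross_swap.1 h')
    rcases cross_third hc hx hy with h | h
    · exact main g hgG h
    · apply main (g * γ) (G.mul_mem hgG hγ)
      rw [mul_smul, mul_smul, hp]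
      exact h

end Pool.Agent.Lib.MP_eee7a8_ag.TB.C96
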