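import Pool.Agent.Lib.MP_eee7a8_ag.TB.A.Tri
import Pool.Agent.Lib.MP_eee7a8_ag.TB.H29.Ncs
import Pool.Agent.Lib.MP_eee7a8_ag.TB.StrandLem
import Pool.Agent.Lib.MP_eee7a8_ag.TB.Iface3

/-!
# TAGBR, module LOBE: pairs and axes in the complement of `S ∪ F`

`lobe : LobeStatement`, from FIRST, POL, TRPOL, TRACE and NONZERO.
-/

open Matrix

namespace Pool.Agent.Lib.MP_eee7a8_ag.TB.C96

theorem sep_trans {a b c s t : Cusp} (h : Cross a b s t) (hn : ¬ Cross a c s t) (h1 : c ≠ s)
    (h2 : c ≠ t) : Cross c b s t := by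
  simp only [cross_iff] at *
  grind

/-- The third vertex of a triangle on the side `dy` of the quadrilateral `x c y d`. -/
theorem third_cases {x y c d w : Cusp} (h : Cross x y c d) (hw : ¬ Cross w x d y) (hwd : w ≠ d)
    (hwy : w ≠ y) : Cross w y x d ∨ w = x ∨ Cross d w x c ∨ w = c ∨ Cross x y d w := by
  simp only [cross_iff] at *
  grind (splits := 60)

theorem side_choice {a f d y x : Cusp} (h : Cross a f d y) :
    ¬ Cross a x d y ∨ ¬ Cross f x d y := by
  simp only [cross_iff] at *
  grind (splits := 60)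

section

variable {G : Subgroup SLZ} {K : Type} [Field K] [Algebra ℂ K] {ι : Type} {T : Fam ι}
  {S F : Cusp → Cusp → Prop}

/-- The union of `S` and `F` is a symmetric invariant set of edges. -/
theorem subE_symm (hS : SubE G T S) {a b : Cusp} (h : S a b) : S b a :=
  hS.inv a b b a (SameArc.rev a b) h

theorem not_S_side (hT : T.IsTri G) (hS : SubE G T S)
    (hSF : ∀ a b c, S a b → T.E G a c → T.E G b c → (S a c ∨ F a c)) {x y c d : Cusp}
    (hxy : ∀ s t, S s t ∨ F s t → ¬ Cross x y s t) (hxc : T.E G x c) (hxd : T.E G x d)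
    (hcd : T.E G c d) (hcr : Cross x y c d) : ¬ S d y := by
  intro hdy
  obtain ⟨hxy', hxc', hxd', hyc', hyd', hcd'⟩ := hcr.ne
  have hW : ¬ (S d c ∨ F d c) := fun h => hxy d c h (cross_comm_right.1 hcr)
  obtain ⟨a, f, had, hay, hfd, hfy, haf⟩ := hT.tri d y (hS.sub _ _ hdy)
  have key : ∀ w, T.E G w d → T.E G w y → ¬ Cross w x d y → False := by
    intro w hwd hwy hw
    have hWdw : S d w ∨ F d w := hSF d y w hdy hwd.symm hwy.symm
    rcases third_cases hcr hw (hT.ne' hwd) (hT.ne' hwy) with h | h | h | h | h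
    · exact hT.nocross _ _ _ _ hwy hxd h
    · subst h
      exact hT.nocross _ _ _ _ hwy hcd hcr
    · exact hT.nocross _ _ _ _ hwd.symm hxc h
    · subst h
      exact hW hWdw
    · exact hxy d w hWdw h
  rcases side_choice (x := x) haf with h | h
  · exact key a had hay h
  · exact key f hfd hfy h

theorem lam_mem (hfirst : FirstStatement) (hnz : NonzeroStatement) (L : Lam G K)
    (hG : IsSurface G) [Finite ι] (hT : T.IsTri G) (hS : SubE G T S) (hF : SubE G T F)
    (hSF : ∀ a b c, S a b → T.E G a c → T.E G b c → (S a c ∨ F a c)) :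
    ∀ (n : ℕ) (x y : Cusp), Set.ncard {p : Cusp × Cusp | T.E G p.1 p.2 ∧ Cross p.1 p.2 x y} = n →
      ¬ S x y → (∀ s t, S s t ∨ F s t → ¬ Cross x y s t) →
      L.lam x y ∈
        IntermediateField.adjoin ℂ {z : K | ∃ a b, T.E G a b ∧ ¬ S a b ∧ z = L.lam a b} := by
  intro n
  induction n using Nat.strong_induction_on with
  | _ n ih =>
    intro x y hn hSxy hxy
    by_cases hxye : x = y
    · subst hxye
      rw [L.self]
      exact zero_mem _
    have gen : ∀ a b, T.E G a b → ¬ S a b → L.lam a b ∈
        IntermediateField.adjoin ℂ {z : K | ∃ a b, T.E G a b ∧ ¬ S a b ∧ z = L.lam a b} :=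
      fun a b h1 h2 => IntermediateField.subset_adjoin _ _ ⟨a, b, h1, h2, rfl⟩
    rcases hT.star x y hxye with h | ⟨c, d, hxc, hxd, hcd, hcr⟩
    · exact gen x y h hSxy
    obtain ⟨hxy', hxc', hxd', hyc', hyd', hcd'⟩ := hcr.ne
    have hcr' : Cross x y d c := cross_comm_right.1 hcr
    have hWcd : ¬ (S c d ∨ F c d) := fun h => hxy c d h hcr
    have hWdc : ¬ (S d c ∨ F d c) := fun h => hxy d c h hcr'
    have hScd : ¬ S c d := fun h => hWcd (Or.inl h)
    have hSxc : ¬ S x c := fun h => hWcd (hSF c x d (subE_symm hS h) hcd hxd)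
    have hSxd : ¬ S x d := fun h => hWdc (hSF d x c (subE_symm hS h) hcd.symm hxc)
    have hSdy : ¬ S d y := not_S_side hT hS hSF hxy hxc hxd hcd hcr
    have hScy : ¬ S c y := not_S_side hT hS hSF hxy hxd hxc hcd.symm hcr'
    have hE : ∀ s t, S s t ∨ F s t → T.E G s t := by
      rintro s t (h | h)
      · exact hS.sub _ _ h
      · exact hF.sub _ _ h
    have hside : ∀ e f, Cross x y e f → T.E G e f → ∀ s t, S s t ∨ F s t → ¬ Cross e y s t := by
      intro e f hef hEef s t hst hc
      have h1 : Cross s t y e := cross_swap.1 (cross_comm_left.1 hc)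
      have h2 : Cross y x e f := cross_comm_left.1 hef
      rcases h2.side h1 with h3 | h3
      · exact hxy s t hst (cross_comm_left.1 (cross_swap.1 h3))
      · exact hT.nocross _ _ _ _ (hE _ _ hst) hEef h3
    obtain ⟨h1, h2⟩ := hfirst G ι T hT x y c d hxc hxd hcd hcr
    have m1 := ih _ (hn ▸ h1) d y rfl hSdy (hside d c hcr' hcd.symm)
    have m2 := ih _ (hn ▸ h2) c y rfl hScy (hside c d hcr hcd)
    have hpt := L.ptolemy x y c d hcr
    have hne : L.lam c d ≠ 0 := hnz G K L hG c d hcd'
    have : L.lam x y = (L.lam x c * L.lam y d + L.lam x d * L.lam y c) / L.lam c d := by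
      rw [eq_div_iff hne, hpt]
    rw [this, L.symm y d, L.symm y c]
    exact div_mem (add_mem (mul_mem (gen x c hxc hSxc) m1) (mul_mem (gen x d hxd hSxd) m2))
      (gen c d hcd hScd)

theorem ncs_side {h : SLZ} (ht : 2 < |h.1.trace|) {a b c d : Cusp} (hab : 0 < side h a * side h b)
    (hcd : 0 < side h c * side h d) (hac : side h a * side h c < 0) : ¬ Cross a b c d := by
  have hdisc : 0 < (PB.sideF h).disc := by
    rw [PB.disc_sideF]
    have h3 : (3 : ℤ) ≤ |h.1.trace| := by omega
    have : (9 : ℤ) ≤ h.1.trace ^ 2 := by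
      rw [← sq_abs]
      nlinarith
    linarith
  rcases lt_or_gt_of_ne (show side h a ≠ 0 from fun e => by rw [e] at hac; simp at hac) with ha | ha
  · have hb : side h b < 0 := by nlinarith
    have hc : 0 < side h c := by nlinarith
    have hd : 0 < side h d := by nlinarith
    intro hcr
    refine PB.H29.ncs (PB.sideF h) c d a b hdisc ?_ ?_ ?_ ?_ (cross_swap.1 hcr) <;>
      rw [PB.ev_sideF] <;> omega
  · have hb : 0 < side h b := by nlinarith
    have hc : side h c < 0 := by nlinarith
    have hd : side h d < 0 := by nlinarith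
    refine PB.H29.ncs (PB.sideF h) a b c d hdisc ?_ ?_ ?_ ?_ <;>
      rw [PB.ev_sideF] <;> omega

theorem lam_smul_mem (hfirst : FirstStatement) (hnz : NonzeroStatement) (L : Lam G K)
    (hG : IsSurface G) [Finite ι] (hT : T.IsTri G) (hS : SubE G T S) (hF : SubE G T F)
    (hSF : ∀ a b c, S a b → T.E G a c → T.E G b c → (S a c ∨ F a c))
    {h : SLZ} (hh : h ∈ G) (ht : 2 < |h.1.trace|)
    (hW : ∀ c d, S c d ∨ F c d → 0 < side h c * side h d) {c d : Cusp} (hcd : T.E G c d)
    (hs : side h c * side h d < 0) :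
    L.lam c (h • d) ∈
      IntermediateField.adjoin ℂ {z : K | ∃ a b, T.E G a b ∧ ¬ S a b ∧ z = L.lam a b} := by
  have hE : ∀ s t, S s t ∨ F s t → T.E G s t := by
    rintro s t (h | h)
    · exact hS.sub _ _ h
    · exact hF.sub _ _ h
  have hsd := PB.side_smul_self h d
  have hsc := PB.side_smul_self h c
  refine lam_mem hfirst hnz L hG hT hS hF hSF _ c (h • d) rfl ?_ ?_
  · intro hc
    have := hW _ _ (Or.inl hc)
    rw [hsd] at this
    linarith
  · intro s t hst hc
    have h1 := hW s t hst
    have hs0 : side h s ≠ 0 := fun e => by rw [e] at h1; simp at h1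
    have ht0 : side h t ≠ 0 := fun e => by rw [e] at h1; simp at h1
    have hc0 : side h c ≠ 0 := fun e => by rw [e] at hs; simp at hs
    have hd0 : side h d ≠ 0 := fun e => by rw [e] at hs; simp at hs
    rcases lt_or_gt_of_ne (show side h s * side h c ≠ 0 from mul_ne_zero hs0 hc0) with h2 | h2
    · -- `st` on the side of `d`
      have h3 : ¬ Cross c (h • c) s t := by
        apply ncs_side ht
        · rw [hsc]; exact mul_self_pos.2 hc0
        · exact h1
        · rw [mul_comm]; exact h2
      have h4 : Cross (h • c) (h • d) s t := by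
        refine sep_trans hc h3 ?_ ?_
        · intro e
          rw [← e, hsc] at h2
          nlinarith [mul_self_nonneg (side h c)]
        · intro e
          rw [← e, hsc] at h1
          nlinarith
      exact hT.nocross _ _ _ _ (hcd.smul hh) (hE _ _ hst) h4
    · -- `st` on the side of `c`
      have h5 : side h s * side h d < 0 := by
        rcases lt_or_gt_of_ne hs0 with h6 | h6
        · have : side h c < 0 := by nlinarith
          have : 0 < side h d := by nlinarith
          nlinarith
        · have : 0 < side h c := by nlinarith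
          have : side h d < 0 := by nlinarith
          nlinarith
      have h3 : ¬ Cross (h • d) d s t := by
        apply ncs_side ht
        · rw [hsd]; exact mul_self_pos.2 hd0
        · exact h1
        · rw [hsd, mul_comm]; exact h5
      have h4 : Cross d c s t := by
        refine sep_trans (cross_comm_left.1 hc) h3 ?_ ?_
        · intro e
          rw [← e] at h5
          nlinarith [mul_self_nonneg (side h d)]
        · intro e
          rw [← e] at h1
          linarith
      exact hT.nocross _ _ _ _ hcd.symm (hE _ _ hst) h4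

end

/-- LOBE. -/
theorem lobe (hfirst : FirstStatement) (hpol : PolStatement) (htrp : TrPolStatement)
    (htr : TraceStatement) (hnz : NonzeroStatement) : LobeStatement := by
  intro G K _ _ L hG ι _ T hT S F hS hF hSF
  refine ⟨fun x y h1 h2 => lam_mem hfirst hnz L hG hT hS hF hSF _ x y rfl h1 h2, ?_⟩
  intro h hh ht hW
  obtain ⟨P, hP, hev⟩ := hpol G K L hG ι T hT
  obtain ⟨⟨c, d, hcd, hs⟩, -⟩ := htrp G K L hG ι T hT P hP hev h hh ht 1 le_rfl
  have hne : c ≠ d := hT.ne' hcd
  have hScd : ¬ S c d := fun hc => by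
    have := hW _ _ (Or.inl hc)
    linarith
  have htrace := (htr G K L hG h hh ht).2.1 c d hs
  have m1 := lam_smul_mem hfirst hnz L hG hT hS hF hSF hh ht hW hcd hs
  have m2 := lam_smul_mem (h := h⁻¹) hfirst hnz L hG hT hS hF hSF (G.inv_mem hh)
    (by rw [PB.trace_inv]; exact ht)
    (fun c d hc => by
      rw [PB.side_inv, PB.side_inv, neg_mul_neg]
      exact hW c d hc) hcd
    (by rw [PB.side_inv, PB.side_inv, neg_mul_neg]; exact hs)
  have hnz' : L.lam c d ≠ 0 := hnz G K L hG c d hne
  have : L.tr h = (L.lam c (h • d) + L.lam c (h⁻¹ • d)) / L.lam c d := by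
    rw [eq_div_iff hnz', htrace]
  rw [this]
  exact div_mem (add_mem m1 m2) (IntermediateField.subset_adjoin _ _ ⟨c, d, hcd, hScd, rfl⟩)

end Pool.Agent.Lib.MP_eee7a8_ag.TB.C96
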