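import Pool.Agent.Lib.MP_eee7a8_ag.TB.Iface4

/-!
# TAGBR: powers of parabolic elements (helper96)
-/

open Matrix

namespace Pool.Agent.Lib.MP_eee7a8_ag.TB.C96

theorem par_mul (a : Cusp) (m n : ℤ) : par a m * par a n = par a (m + n) := by
  apply Subtype.ext
  rw [Matrix.SpecialLinearGroup.coe_mul]
  simp only [par, Matrix.mul_fin_two]
  ext i j
  fin_cases i <;> fin_cases j <;> simp <;> ring

theorem par_zero (a : Cusp) : par a 0 = 1 := by
  ext i j
  fin_cases i <;> fin_cases j <;> simp [par]

theorem par_pow (a : Cusp) (m : ℤ) (k : ℕ) : par a m ^ k = par a (k * m) := by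
  induction k with
  | zero => simp [par_zero]
  | succ k ih => rw [pow_succ, ih, par_mul]; congr 1; push_cast; ring

theorem par_inv (a : Cusp) (m : ℤ) : (par a m)⁻¹ = par a (-m) := by
  rw [inv_eq_iff_mul_eq_one, par_mul]; simp [par_zero]

theorem par_zpow (a : Cusp) (m k : ℤ) : par a m ^ k = par a (k * m) := by
  rcases Int.eq_nat_or_neg k with ⟨n, rfl | rfl⟩
  · rw [zpow_natCast, par_pow]
  · rw [_root_.zpow_neg, zpow_natCast, par_pow, par_inv]; congr 1; ring

theorem eps_par_x (a b : Cusp) (n : ℤ) :
    eps (par a n) b * (par a n • b).x = b.x + n * dt a b * a.x := by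
  rw [smul_x]; simp [par, dt]; ring

theorem eps_par_y (a b : Cusp) (n : ℤ) :
    eps (par a n) b * (par a n • b).y = b.y + n * dt a b * a.y := by
  rw [smul_y]; simp [par, dt]; ring

theorem dt_par_right (a b c : Cusp) (n : ℤ) :
    eps (par a n) b * dt c (par a n • b) = dt c b + n * dt a b * dt c a := by
  have h1 := eps_par_x a b n
  have h2 := eps_par_y a b n
  unfold dt at *
  linear_combination c.x * h2 - c.y * h1

theorem par_fix (a : Cusp) (n : ℤ) : par a n • a = a := by
  apply Cusp.ext_pm (eps_or (par a n) a)
  · rw [eps_par_x, dt_self]; ring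
  · rw [eps_par_y, dt_self]; ring

/-- The product of the two sides of `p w` at `par p m • w` and `par p m' • w`. -/
theorem cross_par (p w : Cusp) (m m' : ℤ) :
    Cross p w (par p m • w) (par p m' • w) ↔ m * m' * dt p w ^ 6 < 0 := by
  unfold Cross
  have e1 : dt p (par p m • w) = eps (par p m) w * dt p w := by
    have := dt_par_right p w p m
    rw [dt_self] at this
    have h2 := eps_sq (par p m) w
    linear_combination (eps (par p m) w) * this - dt p (par p m • w) * h2
  have e2 : dt w (par p m • w) = eps (par p m) w * (-(m * dt p w ^ 2)) := by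
    have := dt_par_right p w w m
    rw [dt_self, dt_symm w p] at this
    have h2 := eps_sq (par p m) w
    linear_combination (eps (par p m) w) * this - dt w (par p m • w) * h2
  have e3 : dt p (par p m' • w) = eps (par p m') w * dt p w := by
    have := dt_par_right p w p m'
    rw [dt_self] at this
    have h2 := eps_sq (par p m') w
    linear_combination (eps (par p m') w) * this - dt p (par p m' • w) * h2
  have e4 : dt w (par p m' • w) = eps (par p m') w * (-(m' * dt p w ^ 2)) := by
    have := dt_par_right p w w m'
    rw [dt_self, dt_symm w p] at this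
    have h2 := eps_sq (par p m') w
    linear_combination (eps (par p m') w) * this - dt w (par p m' • w) * h2
  have : dt p (par p m • w) * dt w (par p m • w) *
      (dt p (par p m' • w) * dt w (par p m' • w)) = m * m' * dt p w ^ 6 := by
    rw [e1, e2, e3, e4]
    have h1 := eps_sq (par p m) w
    have h2 := eps_sq (par p m') w
    calc _ = (eps (par p m) w * eps (par p m) w) * (eps (par p m') w * eps (par p m') w) *
          (m * m' * dt p w ^ 6) := by ring
      _ = _ := by rw [h1, h2]; ring
  rw [this]

/-- A third point is separated from one of two separated points. -/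
theorem cross_third {x y w w' q : Cusp} (h : Cross x y w w') (hx : q ≠ x) (hy : q ≠ y) :
    Cross x y q w ∨ Cross x y q w' := by
  unfold Cross at *
  have h1 : dt x q ≠ 0 := fun e => hx (dt_eq_zero.1 e).symm
  have h2 : dt y q ≠ 0 := fun e => hy (dt_eq_zero.1 e).symm
  have h3 : dt x q * dt y q ≠ 0 := mul_ne_zero h1 h2
  rcases lt_or_gt_of_ne h3 with h4 | h4
  · by_cases h5 : 0 < dt x w * dt y w
    · left; exact mul_neg_of_neg_of_pos h4 h5
    · right
      have : 0 < dt x w' * dt y w' := by
        by_contra h6
        push Not at h5 h6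
        have := mul_nonneg_of_nonpos_of_nonpos h5 h6
        linarith
      exact mul_neg_of_neg_of_pos h4 this
  · by_cases h5 : dt x w * dt y w < 0
    · left; exact mul_neg_of_pos_of_neg h4 h5
    · right
      have : dt x w' * dt y w' < 0 := by
        by_contra h6
        push Not at h5 h6
        have := mul_nonneg h5 h6
        linarith
      exact mul_neg_of_pos_of_neg h4 this

/-- A generator of the stabiliser is a nontrivial power of a parabolic element. -/
theorem gen_par (hst : StabStatement) (G : Subgroup SLZ) (hG : IsSurface G) (p : Cusp) (γ : SLZ)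
    (hγ : γ ∈ G) (hp : γ • p = p) (hg : ∀ g ∈ G, g • p = p → ∃ k : ℤ, g = γ ^ k ∨ g = -γ ^ k) :
    ∃ N : ℤ, N ≠ 0 ∧ (γ = par p N ∨ γ = -par p N) := by
  obtain ⟨hw, hmem, hall⟩ := hst G hG p
  obtain ⟨k, hk⟩ := hall γ hγ hp
  refine ⟨k * width G p, ?_, hk⟩
  intro h0
  -- then γ = ±1
  have h1 : γ = 1 ∨ γ = -1 := by
    rw [h0, par_zero] at hk; exact hk
  have hpow : ∀ j : ℤ, γ ^ j = 1 ∨ γ ^ j = -1 := by
    intro j
    rcases h1 with h1 | h1
    · left; rw [h1, _root_.one_zpow]
    · rw [h1]
      rcases Int.even_or_odd j with hj | hj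
      · left; exact hj.neg_one_zpow
      · right; exact hj.neg_one_zpow
  have key : ∀ g : SLZ, (g = par p (width G p) ∨ g = -par p (width G p)) → g ∈ G → False := by
    intro g hg1 hg2
    have hfix : g • p = p := by
      rcases hg1 with rfl | rfl
      · exact par_fix _ _
      · rw [neg_smul']; exact par_fix _ _
    obtain ⟨j, hj⟩ := hg g hg2 hfix
    have h3 : par p (width G p) = 1 ∨ par p (width G p) = -1 := by
      rcases hg1 with rfl | rfl <;> rcases hj with hj | hj <;> rcases hpow j with h | h <;>
        rw [h] at hj
      · exact Or.inl hj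
      · exact Or.inr hj
      · exact Or.inr hj
      · left; rw [hj]; simp
      · right; rw [← neg_inj.2 hj]; simp
      · left; have := neg_inj.1 hj; exact this
      · left; have := neg_inj.1 hj; exact this
      · right
        rw [neg_neg] at hj
        rw [← hj, neg_neg]
    have h4 : (width G p : ℤ) = 0 := by
      rcases h3 with h | h
      · have e01 : (par p (width G p)).1 0 1 = 0 := by rw [h]; simp
        have e10 : (par p (width G p)).1 1 0 = 0 := by rw [h]; simp
        simp [par] at e01 e10
        rcases e01 with e | e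
        · exact_mod_cast e
        · rcases e10 with e' | e'
          · exact_mod_cast e'
          · exact absurd (p.ne_zero) (by simp [e, e'])
      · have e01 : (par p (width G p)).1 0 1 = 0 := by rw [h]; simp
        have e10 : (par p (width G p)).1 1 0 = 0 := by rw [h]; simp
        simp [par] at e01 e10
        rcases e01 with e | e
        · exact_mod_cast e
        · rcases e10 with e' | e'
          · exact_mod_cast e'
          · exact absurd (p.ne_zero) (by simp [e, e'])
    have : width G p = 0 := by exact_mod_cast h4
    omega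
  rcases hmem with h | h
  · exact key _ (Or.inl rfl) h
  · exact key _ (Or.inr rfl) h

theorem neg_zpow_smul (γ : SLZ) (k : ℤ) (g : SLZ) (x : Cusp) (h : g = γ ^ k ∨ g = -γ ^ k) :
    g • x = γ ^ k • x := by
  rcases h with rfl | rfl
  · rfl
  · exact neg_smul' _ _

theorem zpow_smul_of (p : Cusp) (N : ℤ) (γ : SLZ) (h : γ = par p N ∨ γ = -par p N) (k : ℤ)
    (x : Cusp) : γ ^ k • x = par p (k * N) • x := by
  rcases h with rfl | rfl
  · rw [par_zpow]
  · rcases Int.even_or_odd k with hk | hk
    · rw [hk.neg_zpow, par_zpow]
    · rw [hk.neg_zpow, neg_smul', par_zpow]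

end Pool.Agent.Lib.MP_eee7a8_ag.TB.C96
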